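import Mathlib

open Finset

namespace Pool.Agent.X72.Zf

/-- the vertices turned blue starting from `B` -/
inductive Blue {V : Type} (G : SimpleGraph V) (B : Set V) : V → Prop
  | base (v : V) : v ∈ B → Blue G B v
  | step (u v : V) : Blue G B u → G.Adj u v → (∀ x, G.Adj u x → x ≠ v → Blue G B x) → Blue G B v

/-- expectation of `g` of the random subset of `U` (each element with probability `p`) -/
noncomputable def E {V : Type} [DecidableEq V] (p : ℝ) (U : Finset V) (g : Finset V → ℝ) : ℝ :=
  ∑ S ∈ U.powerset, p ^ #S * (1 - p) ^ (#U - #S) * g S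

section
variable {V : Type} [DecidableEq V] {p : ℝ}

lemma E_congr {U : Finset V} {g g' : Finset V → ℝ} (h : ∀ S ⊆ U, g S = g' S) :
    E p U g = E p U g' := by
  unfold E
  apply sum_congr rfl
  intro S hS
  rw [h S (mem_powerset.1 hS)]

lemma E_insert {U : Finset V} {a : V} (ha : a ∉ U) (g : Finset V → ℝ) :
    E p (insert a U) g = p * E p U (fun S => g (insert a S)) + (1 - p) * E p U g := by
  unfold E
  rw [sum_powerset_insert ha, add_comm, mul_sum, mul_sum]
  congr 1
  · apply sum_congr rfl
    intro S hS
    rw [mem_powerset] at hS
    have haS : a ∉ S := fun h => ha (hS h)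
    rw [card_insert_of_notMem haS, card_insert_of_notMem ha, Nat.add_sub_add_right, pow_succ]
    ring
  · apply sum_congr rfl
    intro S hS
    rw [mem_powerset] at hS
    have h1 := card_le_card hS
    rw [card_insert_of_notMem ha, Nat.sub_add_comm h1, pow_succ]
    ring

lemma E_one (U : Finset V) : E p U (fun _ => 1) = 1 := by
  induction U using Finset.induction_on with
  | empty => simp [E]
  | insert a U ha ih =>
    rw [E_insert ha, ih]
    ring

lemma E_avoid (A U : Finset V) (h : Disjoint A U) :
    E p (A ∪ U) (fun S => if ∀ v ∈ A, v ∉ S then 1 else 0) = (1 - p) ^ #A := by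
  induction A using Finset.induction_on with
  | empty => simp [E_one]
  | insert a A ha ih =>
    rw [disjoint_insert_left] at h
    have ha' : a ∉ A ∪ U := by
      rw [mem_union]
      rintro (h1 | h1)
      · exact ha h1
      · exact h.1 h1
    rw [insert_union, E_insert ha', card_insert_of_notMem ha, pow_succ, mul_comm ((1 - p) ^ #A)]
    have e1 : E p (A ∪ U) (fun S => (fun S => if ∀ v ∈ insert a A, v ∉ S then (1 : ℝ) else 0)
        (insert a S)) = 0 := by
      rw [E_congr (g' := fun _ => 0)]
      · simp [E]
      · intro S _
        simp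
    have e2 : E p (A ∪ U) (fun S => if ∀ v ∈ insert a A, v ∉ S then (1 : ℝ) else 0) =
        E p (A ∪ U) (fun S => if ∀ v ∈ A, v ∉ S then 1 else 0) := by
      apply E_congr
      intro S hS
      have : a ∉ S := fun h1 => ha' (hS h1)
      simp [this]
    rw [e1, e2, ih h.2]
    ring

/-- no pair `a t, b t` is contained in the random set -/
lemma E_pairs (a b : ℕ → V) (r : ℕ) (U : Finset V)
    (ha : ∀ t < r, a t ∉ U) (hb : ∀ t < r, b t ∉ U)
    (haa : ∀ s < r, ∀ t < r, a s = a t → s = t) (hbb : ∀ s < r, ∀ t < r, b s = b t → s = t)
    (hab : ∀ s < r, ∀ t < r, a s ≠ b t) :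
    E p ((range r).image a ∪ (range r).image b ∪ U)
      (fun S => if ∀ t < r, ¬ (a t ∈ S ∧ b t ∈ S) then 1 else 0) = (1 - p ^ 2) ^ r := by
  induction r with
  | zero => simp [E_one]
  | succ r ih =>
    have ih' := ih (fun t ht => ha t (by omega)) (fun t ht => hb t (by omega))
      (fun s hs t ht => haa s (by omega) t (by omega)) (fun s hs t ht => hbb s (by omega) t (by omega))
      (fun s hs t ht => hab s (by omega) t (by omega))
    set U' := (range r).image a ∪ (range r).image b ∪ U with hU'
    have hset : (range (r + 1)).image a ∪ (range (r + 1)).image b ∪ U =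
        insert (a r) (insert (b r) U') := by
      rw [hU']
      ext v
      simp only [range_add_one, image_insert, mem_union, mem_insert]
      tauto
    have hbr : b r ∉ U' := by
      rw [hU']
      simp only [mem_union, mem_image, mem_range]
      rintro ((⟨t, ht, h⟩ | ⟨t, ht, h⟩) | h)
      · exact hab t (by omega) r (by omega) h
      · have := hbb t (by omega) r (by omega) h
        omega
      · exact hb r (by omega) h
    have har : a r ∉ insert (b r) U' := by
      rw [hU']
      simp only [mem_insert, mem_union, mem_image, mem_range]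
      rintro (h | ((⟨t, ht, h⟩ | ⟨t, ht, h⟩) | h))
      · exact hab r (by omega) r (by omega) h
      · have := haa t (by omega) r (by omega) h
        omega
      · exact hab r (by omega) t (by omega) h.symm
      · exact ha r (by omega) h
    have har' : a r ∉ U' := fun h => har (mem_insert_of_mem h)
    rw [hset, E_insert har, E_insert hbr, E_insert hbr]
    -- the four terms
    have habr : a r ≠ b r := hab r (by omega) r (by omega)
    have hat : ∀ t < r, a t ≠ a r := fun t ht h => by
      have := haa t (by omega) r (by omega) h
      omega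
    have hbt : ∀ t < r, b t ≠ b r := fun t ht h => by
      have := hbb t (by omega) r (by omega) h
      omega
    have e1 : E p U' (fun S => (if ∀ t < r + 1, ¬ (a t ∈ insert (a r) (insert (b r) S) ∧
        b t ∈ insert (a r) (insert (b r) S)) then (1 : ℝ) else 0)) = 0 := by
      rw [E_congr (g' := fun _ => 0)]
      · simp [E]
      · intro S _
        rw [if_neg]
        push Not
        exact ⟨r, by omega, by simp, by simp⟩
    have e2 : ∀ X : Finset V, (∀ t < r, a t ∉ X) → (∀ t < r, b t ∉ X) → ¬ (a r ∈ X ∧ b r ∈ X) →
        E p U' (fun S => (if ∀ t < r + 1, ¬ (a t ∈ X ∪ S ∧ b t ∈ X ∪ S) then (1 : ℝ) else 0)) =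
        (1 - p ^ 2) ^ r := by
      intro X hX1 hX2 hX3
      rw [← ih']
      apply E_congr
      intro S hS
      have h1 : a r ∉ S := fun h => har' (hS h)
      have h2 : b r ∉ S := fun h => hbr (hS h)
      congr 1
      apply propext
      constructor
      · intro h t ht
        have := h t (by omega)
        simp only [mem_union, hX1 t ht, hX2 t ht, false_or] at this
        exact this
      · intro h t ht
        rcases Nat.lt_succ_iff_lt_or_eq.1 ht with h3 | h3
        · simp only [mem_union, hX1 t h3, hX2 t h3, false_or]
          exact h t h3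
        · subst h3
          simp only [mem_union, h1, h2, or_false]
          exact hX3
    have e3 := e2 {a r} (fun t ht => by simpa using hat t ht)
      (fun t ht => by simpa using (hab r (by omega) t (by omega)).symm) (by simp [habr.symm])
    have e4 := e2 {b r} (fun t ht => by simpa using hab t (by omega) r (by omega))
      (fun t ht => by simpa using hbt t ht) (by simp [habr])
    have e5 := e2 ∅ (by simp) (by simp) (by simp)
    simp only [← insert_eq, empty_union] at e3 e4 e5
    have key : ∀ x1 x2 x3 x4 : ℝ, x1 = 0 → x2 = (1 - p ^ 2) ^ r → x3 = (1 - p ^ 2) ^ r →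
        x4 = (1 - p ^ 2) ^ r →
        p * (p * x1 + (1 - p) * x2) + (1 - p) * (p * x3 + (1 - p) * x4) = (1 - p ^ 2) ^ (r + 1) := by
      rintro x1 x2 x3 x4 rfl rfl rfl rfl
      ring
    exact key _ _ _ _ (by refine Eq.trans ?_ e1; apply E_congr; intro S _; congr)
      (by refine Eq.trans ?_ e3; apply E_congr; intro S _; congr)
      (by refine Eq.trans ?_ e4; apply E_congr; intro S _; congr)
      (by refine Eq.trans ?_ e5; apply E_congr; intro S _; congr)

end

end Pool.Agent.X72.Zf
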