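import Pool.Agent.X72.Zf.A

open Finset

namespace Pool.Agent.X72.Zf

/-- positions: column `j < L + M`, row `i < w + (j + 1 - L)` -/
def D (L M w : ℕ) : Finset (ℕ × ℕ) :=
  (range (L + M) ×ˢ range (w + M)).filter fun x => x.2 < w + (x.1 + 1 - L)

lemma mem_D {L M w : ℕ} {j i : ℕ} : (j, i) ∈ D L M w ↔ j < L + M ∧ i < w + (j + 1 - L) := by
  simp only [D, mem_filter, mem_product, mem_range]
  constructor
  · rintro ⟨⟨h1, -⟩, h2⟩
    exact ⟨h1, h2⟩
  · rintro ⟨h1, h2⟩
    exact ⟨⟨h1, by omega⟩, h2⟩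

abbrev V (L M w : ℕ) : Type := {x : ℕ × ℕ // x ∈ D L M w}

/-- the graph -/
def Gr (L M w : ℕ) : SimpleGraph (V L M w) :=
  SimpleGraph.fromRel fun x y =>
    (y.1.1 = x.1.1 + 1 ∧ (y.1.2 = x.1.2 ∨ (L ≤ y.1.1 ∧ y.1.2 = x.1.2 + 1))) ∨
      (x.1.1 + 1 = L + M ∧ y.1.1 + 1 = L + M)

section
variable {L M w : ℕ} {B : Set (V L M w)}

/-- position `(j, i)` becomes blue (if it is a vertex) -/
def Bl (B : Set (V L M w)) (j i : ℕ) : Prop :=
  ∀ h : (j, i) ∈ D L M w, Blue (Gr L M w) B ⟨(j, i), h⟩

lemma path_right {i j : ℕ} (hi : i < w) (hj : j + 1 < L) (h1 : Bl B j i)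
    (h2 : ∀ j', j' + 1 = j → Bl B j' i) : Bl B (j + 1) i := by
  intro h
  have hx : (j, i) ∈ D L M w := mem_D.2 ⟨by omega, by omega⟩
  apply Blue.step ⟨(j, i), hx⟩ _ (h1 hx)
  · rw [Gr, SimpleGraph.fromRel_adj]
    refine ⟨?_, Or.inl (Or.inl ⟨rfl, Or.inl rfl⟩)⟩
    intro h3
    have := congrArg (fun z : V L M w => z.1.1) h3
    simp at this
  · rintro ⟨⟨a, b⟩, hy⟩ hadj hne
    rw [Gr, SimpleGraph.fromRel_adj] at hadj
    simp only at hadj
    rcases hadj.2 with (⟨e1, e2⟩ | ⟨e1, e2⟩) | (⟨e1, e2⟩ | ⟨e1, e2⟩)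
    · rcases e2 with e2 | e2
      · exact absurd (Subtype.ext (Prod.ext e1 e2)) hne
      · omega
    · omega
    · rcases e2 with e2 | e2
      · have := h2 a (by omega)
        subst e2
        exact this hy
      · omega
    · omega

lemma path_left {i j : ℕ} (hi : i < w) (hj : j + 2 < L) (h1 : Bl B (j + 1) i)
    (h2 : Bl B (j + 2) i) : Bl B j i := by
  intro h
  have hx : (j + 1, i) ∈ D L M w := mem_D.2 ⟨by omega, by omega⟩
  apply Blue.step ⟨(j + 1, i), hx⟩ _ (h1 hx)
  · rw [Gr, SimpleGraph.fromRel_adj]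
    refine ⟨?_, Or.inr (Or.inl ⟨rfl, Or.inl rfl⟩)⟩
    intro h3
    have := congrArg (fun z : V L M w => z.1.1) h3
    simp at this
  · rintro ⟨⟨a, b⟩, hy⟩ hadj hne
    rw [Gr, SimpleGraph.fromRel_adj] at hadj
    simp only at hadj
    rcases hadj.2 with (⟨e1, e2⟩ | ⟨e1, e2⟩) | (⟨e1, e2⟩ | ⟨e1, e2⟩)
    · rcases e2 with e2 | e2
      · have e3 : a = j + 2 := by omega
        subst e3
        subst e2
        exact h2 hy
      · omega
    · omega
    · rcases e2 with e2 | e2
      · exact absurd (Subtype.ext (Prod.ext (by omega : a = j) e2.symm)) hne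
      · omega
    · omega

lemma layer_right {j a : ℕ} (hj : L ≤ j + 1) (hjM : j + 1 < L + M) (ha : a < w + (j + 1 - L))
    (hcol : ∀ j', j' ≤ j → ∀ i, Bl B j' i) (h1 : Bl B (j + 1) a) : Bl B (j + 1) (a + 1) := by
  intro h
  have hx : (j, a) ∈ D L M w := mem_D.2 ⟨by omega, by omega⟩
  apply Blue.step ⟨(j, a), hx⟩ _ (hcol j le_rfl a hx)
  · rw [Gr, SimpleGraph.fromRel_adj]
    refine ⟨?_, Or.inl (Or.inl ⟨rfl, Or.inr ⟨hj, rfl⟩⟩)⟩
    intro h3
    have := congrArg (fun z : V L M w => z.1.1) h3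
    simp at this
  · rintro ⟨⟨c, b⟩, hy⟩ hadj hne
    rw [Gr, SimpleGraph.fromRel_adj] at hadj
    simp only at hadj
    rcases hadj.2 with (⟨e1, e2⟩ | ⟨e1, e2⟩) | (⟨e1, e2⟩ | ⟨e1, e2⟩)
    · rcases e2 with e2 | ⟨-, e2⟩
      · subst e1
        subst e2
        exact h1 hy
      · exact absurd (Subtype.ext (Prod.ext e1 e2)) hne
    · omega
    · exact hcol c (by omega) b hy
    · omega

lemma layer_left {j a : ℕ} (hj : L ≤ j + 1) (hjM : j + 1 < L + M) (ha : a < w + (j + 1 - L))
    (hcol : ∀ j', j' ≤ j → ∀ i, Bl B j' i) (h1 : Bl B (j + 1) (a + 1)) : Bl B (j + 1) a := by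
  intro h
  have hx : (j, a) ∈ D L M w := mem_D.2 ⟨by omega, by omega⟩
  apply Blue.step ⟨(j, a), hx⟩ _ (hcol j le_rfl a hx)
  · rw [Gr, SimpleGraph.fromRel_adj]
    refine ⟨?_, Or.inl (Or.inl ⟨rfl, Or.inl rfl⟩)⟩
    intro h3
    have := congrArg (fun z : V L M w => z.1.1) h3
    simp at this
  · rintro ⟨⟨c, b⟩, hy⟩ hadj hne
    rw [Gr, SimpleGraph.fromRel_adj] at hadj
    simp only at hadj
    rcases hadj.2 with (⟨e1, e2⟩ | ⟨e1, e2⟩) | (⟨e1, e2⟩ | ⟨e1, e2⟩)
    · rcases e2 with e2 | ⟨-, e2⟩
      · exact absurd (Subtype.ext (Prod.ext e1 e2)) hne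
      · subst e1
        subst e2
        exact h1 hy
    · omega
    · exact hcol c (by omega) b hy
    · omega

/-- the paths -/
lemma path_all {r : ℕ} (hL : L = 2 * r) {i : ℕ} (hi : i < w) {t : ℕ} (ht : t < r)
    (h1 : Bl B (2 * t) i) (h2 : Bl B (2 * t + 1) i) : ∀ j, j < L → Bl B j i := by
  have up : ∀ s, 2 * t + s + 1 < L → Bl B (2 * t + s) i ∧ Bl B (2 * t + s + 1) i := by
    intro s
    induction s with
    | zero =>
      intro _
      exact ⟨h1, h2⟩
    | succ s ih =>
      intro hs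
      obtain ⟨h3, h4⟩ := ih (by omega)
      refine ⟨h4, ?_⟩
      have := path_right (B := B) hi (j := 2 * t + s + 1) (by omega) h4
        (fun j' hj' => by
          have : j' = 2 * t + s := by omega
          rw [this]
          exact h3)
      exact this
  have down : ∀ s, s ≤ 2 * t → Bl B (2 * t - s) i ∧ Bl B (2 * t - s + 1) i := by
    intro s
    induction s with
    | zero =>
      intro _
      exact ⟨h1, h2⟩
    | succ s ih =>
      intro hs
      obtain ⟨h3, h4⟩ := ih (by omega)
      have e : 2 * t - s = 2 * t - (s + 1) + 1 := by omega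
      rw [e] at h3 h4
      exact ⟨path_left hi (by omega) h3 h4, h3⟩
  intro j hj
  rcases le_or_gt j (2 * t) with h | h
  · have := (down (2 * t - j) (by omega)).1
    have e : 2 * t - (2 * t - j) = j := by omega
    rwa [e] at this
  · have := (up (j - 1 - 2 * t) (by omega)).2
    have e : 2 * t + (j - 1 - 2 * t) + 1 = j := by omega
    rwa [e] at this

/-- the deterministic part -/
theorem all_blue {r : ℕ} (hL : L = 2 * r) (hr : 0 < r)
    (H1 : ∀ i < w, ∃ t < r, Bl B (2 * t) i ∧ Bl B (2 * t + 1) i)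
    (H2 : ∀ j, L ≤ j → j < L + M → ∃ a, a < w + (j + 1 - L) ∧ Bl B j a) :
    ∀ v, Blue (Gr L M w) B v := by
  have hall : ∀ j, ∀ i, Bl B j i := by
    intro j
    induction j using Nat.strong_induction_on with
    | _ j ih =>
      intro i hD
      have hD' := mem_D.1 hD
      rcases lt_or_ge j L with hj | hj
      · have hi : i < w := by omega
        obtain ⟨t, ht, h1, h2⟩ := H1 i hi
        exact path_all hL hi ht h1 h2 j hj hD
      · obtain ⟨a, ha, hBa⟩ := H2 j hj hD'.1
        obtain ⟨j0, rfl⟩ : ∃ j0, j = j0 + 1 := ⟨j - 1, by omega⟩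
        have hcol : ∀ j', j' ≤ j0 → ∀ i, Bl B j' i := fun j' hj' => ih j' (by omega)
        have up : ∀ s, a + s < w + (j0 + 1 + 1 - L) → Bl B (j0 + 1) (a + s) := by
          intro s
          induction s with
          | zero =>
            intro _
            exact hBa
          | succ s ihs =>
            intro hs
            exact layer_right (a := a + s) hj hD'.1 (by omega) hcol (ihs (by omega))
        have down : ∀ s, s ≤ a → Bl B (j0 + 1) (a - s) := by
          intro s
          induction s with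
          | zero =>
            intro _
            exact hBa
          | succ s ihs =>
            intro hs
            have h3 := ihs (by omega)
            have e : a - s = a - (s + 1) + 1 := by omega
            rw [e] at h3
            exact layer_left (a := a - (s + 1)) hj hD'.1 (by omega) hcol h3
        rcases le_or_gt i a with h | h
        · have := down (a - i) (by omega)
          have e : a - (a - i) = i := by omega
          rw [e] at this
          exact this hD
        · have := up (i - a) (by omega)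
          have e : a + (i - a) = i := by omega
          rw [e] at this
          exact this hD
  rintro ⟨⟨j, i⟩, h⟩
  exact hall j i h

end

/-- the last column is a clique with `w + M` vertices -/
lemma clique (L M w : ℕ) (hM : 0 < M) :
    ∃ s : Finset (V L M w), (Gr L M w).IsClique s ∧ #s = w + M := by
  classical
  have hD : ∀ i ∈ range (w + M), (L + M - 1, i) ∈ D L M w := by
    intro i hi
    rw [mem_range] at hi
    exact mem_D.2 ⟨by omega, by omega⟩
  refine ⟨(range (w + M)).attach.image fun i => ⟨(L + M - 1, i.1), hD i.1 i.2⟩, ?_, ?_⟩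
  · intro x hx y hy hxy
    rw [coe_image] at hx hy
    obtain ⟨i, -, rfl⟩ := hx
    obtain ⟨k, -, rfl⟩ := hy
    rw [Gr, SimpleGraph.fromRel_adj]
    exact ⟨hxy, Or.inl (Or.inr ⟨by simp only; omega, by simp only; omega⟩)⟩
  · rw [card_image_of_injective, card_attach, card_range]
    intro i k hik
    apply Subtype.ext
    have := congrArg (fun z : V L M w => z.1.2) hik
    exact this

lemma card_V (L M w : ℕ) : Fintype.card (V L M w) ≤ w * L + M * (w + M) := by
  rw [Fintype.card_coe]
  have h : D L M w ⊆ (range L ×ˢ range w) ∪ ((Ico L (L + M)) ×ˢ range (w + M)) := by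
    rintro ⟨j, i⟩ h
    have h' := mem_D.1 h
    simp only [mem_union, mem_product, mem_range, mem_Ico]
    rcases lt_or_ge j L with hj | hj
    · left
      exact ⟨hj, by omega⟩
    · right
      exact ⟨⟨hj, h'.1⟩, by omega⟩
  refine (card_le_card h).trans ((card_union_le _ _).trans ?_)
  rw [card_product, card_product, card_range, card_range, card_range, Nat.card_Ico]
  have : L + M - L = M := by omega
  rw [this, mul_comm L w]

end Pool.Agent.X72.Zf
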