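import Pool.Agent.X72.Zf.B

open Finset

set_option maxHeartbeats 4000000

namespace Pool.Agent.X72.Zf

section
variable {W : Type} [DecidableEq W] {p : ℝ}

lemma E_mono (h0 : 0 ≤ p) (h1 : p ≤ 1) {U : Finset W} {g g' : Finset W → ℝ}
    (h : ∀ S ⊆ U, g S ≤ g' S) : E p U g ≤ E p U g' := by
  unfold E
  apply sum_le_sum
  intro S hS
  apply mul_le_mul_of_nonneg_left (h S (mem_powerset.1 hS))
  have : 0 ≤ 1 - p := by linarith
  positivity

lemma E_sub_sum (U : Finset W) {ι : Type} (s t : Finset ι) (f g : ι → Finset W → ℝ) :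
    E p U (fun S => 1 - ∑ i ∈ s, f i S - ∑ i ∈ t, g i S) =
      1 - ∑ i ∈ s, E p U (f i) - ∑ i ∈ t, E p U (g i) := by
  have h1 := E_one (p := p) U
  unfold E at h1 ⊢
  simp only [mul_sub, mul_sum, sum_sub_distrib]
  rw [h1, sum_comm, sum_comm (s := U.powerset) (t := t)]

end

/-- the probability that the random set is zero forcing -/
noncomputable def prob {W : Type} [Fintype W] [DecidableEq W] (G : SimpleGraph W) (p : ℝ) : ℝ := by
  classical
  exact E p univ (fun S : Finset W => if ∀ v, Blue G (S : Set W) v then (1 : ℝ) else 0)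

lemma vertex (L M w : ℕ) (v0 : V L M w) (j i : ℕ) : ∃ v : V L M w, (j, i) ∈ D L M w → v.1 = (j, i) := by
  by_cases h : (j, i) ∈ D L M w
  · exact ⟨⟨(j, i), h⟩, fun _ => rfl⟩
  · exact ⟨v0, fun h' => absurd h' h⟩

theorem prob_lower {r M w : ℕ} (hr : 0 < r) (v0 : V (2 * r) M w) {p : ℝ} (h0 : 0 ≤ p) (h1 : p ≤ 1) :
    1 - w * (1 - p ^ 2) ^ r - M * (1 - p) ^ w ≤ prob (Gr (2 * r) M w) p := by
  classical
  set L := 2 * r with hL
  choose vx hvx using vertex L M w v0
  have hp : 0 ≤ 1 - p := by linarith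
  -- the bad events
  let f : ℕ → Finset (V L M w) → ℝ := fun i S =>
    if ∀ t < r, ¬ (vx (2 * t) i ∈ S ∧ vx (2 * t + 1) i ∈ S) then 1 else 0
  let Col : ℕ → Finset (V L M w) := fun j => univ.filter fun v => v.1.1 = j
  let g : ℕ → Finset (V L M w) → ℝ := fun j S => if ∀ v ∈ Col j, v ∉ S then 1 else 0
  have hf : ∀ i ∈ range w, E p univ (f i) = (1 - p ^ 2) ^ r := by
    intro i hi
    rw [mem_range] at hi
    have hDa : ∀ t < r, (2 * t, i) ∈ D L M w := fun t ht => mem_D.2 ⟨by omega, by omega⟩
    have hDb : ∀ t < r, (2 * t + 1, i) ∈ D L M w := fun t ht => mem_D.2 ⟨by omega, by omega⟩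
    let I := (range r).image (fun t => vx (2 * t) i) ∪ (range r).image (fun t => vx (2 * t + 1) i)
    have key := E_pairs (p := p) (fun t => vx (2 * t) i) (fun t => vx (2 * t + 1) i) r (univ \ I)
      (fun t ht h => by
        rw [mem_sdiff] at h
        exact h.2 (mem_union_left _ (mem_image_of_mem _ (mem_range.2 ht))))
      (fun t ht h => by
        rw [mem_sdiff] at h
        exact h.2 (mem_union_right _ (mem_image_of_mem (fun t => vx (2 * t + 1) i) (mem_range.2 ht))))
      (fun s hs t ht h => by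
        have := congrArg (fun v : V L M w => v.1.1) h
        simp only [hvx _ _ (hDa s hs), hvx _ _ (hDa t ht)] at this
        omega)
      (fun s hs t ht h => by
        have := congrArg (fun v : V L M w => v.1.1) h
        simp only [hvx _ _ (hDb s hs), hvx _ _ (hDb t ht)] at this
        omega)
      (fun s hs t ht h => by
        have := congrArg (fun v : V L M w => v.1.1) h
        simp only [hvx _ _ (hDa s hs), hvx _ _ (hDb t ht)] at this
        omega)
    have hU : (range r).image (fun t => vx (2 * t) i) ∪ (range r).image (fun t => vx (2 * t + 1) i) ∪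
        (univ \ I) = univ := by
      exact union_sdiff_of_subset (subset_univ _)
    rw [hU] at key
    exact key
  have hg : ∀ j ∈ Ico L (L + M), E p univ (g j) ≤ (1 - p) ^ w := by
    intro j hj
    rw [mem_Ico] at hj
    have key := E_avoid (p := p) (Col j) (univ \ Col j) disjoint_sdiff
    rw [union_sdiff_of_subset (subset_univ _)] at key
    have hcard : w ≤ #(Col j) := by
      have h2 : (range w).card ≤ #(Col j) := by
        apply card_le_card_of_injOn (fun i => vx j i)
        · intro i hi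
          rw [mem_coe, mem_range] at hi
          have := hvx j i (mem_D.2 ⟨by omega, by omega⟩)
          simp only [Col, coe_filter, mem_univ, true_and, Set.mem_ofPred_eq]
          rw [this]
        · intro i hi i' hi' h
          rw [mem_coe, mem_range] at hi hi'
          have h3 := hvx j i (mem_D.2 ⟨by omega, by omega⟩)
          have h4 := hvx j i' (mem_D.2 ⟨by omega, by omega⟩)
          have h5 := congrArg (fun v : V L M w => v.1.2) h
          simp only [h3, h4] at h5
          exact h5
      rwa [card_range] at h2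
    calc E p univ (g j) = (1 - p) ^ #(Col j) := by
          refine Eq.trans (E_congr ?_) key
          intro S _
          simp only [g]
          congr
      _ ≤ (1 - p) ^ w := pow_le_pow_of_le_one hp (by linarith) hcard
  have hmono : E p univ (fun S => 1 - ∑ i ∈ range w, f i S - ∑ j ∈ Ico L (L + M), g j S) ≤
      prob (Gr L M w) p := by
    apply E_mono h0 h1
    intro S _
    have hfn : ∀ i, 0 ≤ f i S := by
      intro i
      simp only [f]
      split_ifs <;> norm_num
    have hgn : ∀ j, 0 ≤ g j S := by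
      intro j
      simp only [g]
      split_ifs <;> norm_num
    have hsf : 0 ≤ ∑ i ∈ range w, f i S := sum_nonneg fun i _ => hfn i
    have hsg : 0 ≤ ∑ j ∈ Ico L (L + M), g j S := sum_nonneg fun i _ => hgn i
    by_cases hz : ∀ v, Blue (Gr L M w) (S : Set (V L M w)) v
    · rw [if_pos hz]
      linarith
    · rw [if_neg hz]
      by_cases ha : ∃ i ∈ range w, ∀ t < r, ¬ (vx (2 * t) i ∈ S ∧ vx (2 * t + 1) i ∈ S)
      · obtain ⟨i, hi, hi'⟩ := ha
        have : f i S = 1 := if_pos hi'
        have h2 := single_le_sum (f := fun i => f i S) (fun i _ => hfn i) hi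
        linarith
      · by_cases hb : ∃ j ∈ Ico L (L + M), ∀ v ∈ Col j, v ∉ S
        · obtain ⟨j, hj, hj'⟩ := hb
          have : g j S = 1 := if_pos hj'
          have h2 := single_le_sum (f := fun j => g j S) (fun i _ => hgn i) hj
          linarith
        · exfalso
          push Not at ha hb
          apply hz
          apply all_blue hL hr
          · intro i hi
            obtain ⟨t, ht, h3, h4⟩ := ha i (mem_range.2 hi)
            refine ⟨t, ht, ?_, ?_⟩
            · intro h
              apply Blue.base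
              have := hvx _ _ h
              have h5 : vx (2 * t) i = ⟨(2 * t, i), h⟩ := Subtype.ext this
              rw [← h5]
              exact h3
            · intro h
              apply Blue.base
              have := hvx _ _ h
              have h5 : vx (2 * t + 1) i = ⟨(2 * t + 1, i), h⟩ := Subtype.ext this
              rw [← h5]
              exact h4
          · intro j hj1 hj2
            obtain ⟨⟨⟨j', a⟩, hv⟩, h3, h4⟩ := hb j (mem_Ico.2 ⟨hj1, hj2⟩)
            have h5 : j' = j := (mem_filter.1 h3).2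
            subst h5
            refine ⟨a, (mem_D.1 hv).2, fun h => Blue.base _ h4⟩
  rw [E_sub_sum] at hmono
  have e1 : ∑ i ∈ range w, E p univ (f i) = w * (1 - p ^ 2) ^ r := by
    rw [sum_congr rfl hf, sum_const, card_range, nsmul_eq_mul]
  have e2 : ∑ j ∈ Ico L (L + M), E p univ (g j) ≤ M * (1 - p) ^ w := by
    refine (sum_le_sum hg).trans ?_
    rw [sum_const, Nat.card_Ico, nsmul_eq_mul]
    simp
  rw [e1] at hmono
  linarith

lemma prob_zero {W : Type} [Fintype W] [DecidableEq W] [Nonempty W] (G : SimpleGraph W) :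
    prob G 0 = 0 := by
  classical
  unfold prob E
  apply sum_eq_zero
  intro S hS
  rcases S.eq_empty_or_nonempty with rfl | hne
  · have : ¬ ∀ v, Blue G ((∅ : Finset W) : Set W) v := by
      intro h
      have h2 : ∀ v, Blue G ((∅ : Finset W) : Set W) v → False := by
        intro v hv
        induction hv with
        | base v hv => simp at hv
        | step u v _ _ _ ih _ => exact ih
      exact h2 _ (h (Classical.arbitrary W))
    beta_reduce
    rw [if_neg this]
    simp
  · have : #S ≠ 0 := hne.card_pos.ne'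
    rw [zero_pow this]
    simp

lemma prob_cont {W : Type} [Fintype W] [DecidableEq W] (G : SimpleGraph W) :
    Continuous (prob G) := by
  unfold prob E
  fun_prop

/-- the main estimate -/
theorem main {c : ℝ} (hc : 0 < c) : ∃ (W : Type) (_ : Fintype W) (_ : DecidableEq W)
    (G : SimpleGraph W) (s : Finset W), 1 ≤ #s ∧ G.IsClique s ∧
      ∃ p : ℝ, 0 ≤ p ∧ p ≤ 1 ∧ prob G p = 1 / 2 ∧ p < c * Real.sqrt (#s / Fintype.card W) := by
  obtain ⟨C0, hC0⟩ := exists_nat_ge (max (4 / c ^ 2) 2)
  have hC1 : 4 / c ^ 2 ≤ C0 := (le_max_left _ _).trans hC0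
  have hC2 : (2 : ℝ) ≤ C0 := (le_max_right _ _).trans hC0
  have hC2' : 2 ≤ C0 := by exact_mod_cast hC2
  -- choose m
  have ht := tendsto_pow_const_div_const_pow_of_one_lt 4 (r := Real.exp 1)
    (by linarith [Real.add_one_lt_exp (x := 1) one_ne_zero])
  have hev := (ht.eventually (gt_mem_nhds (show (0 : ℝ) < 1 / (2 * C0 ^ 3 + 1) by positivity))).and
    (Filter.eventually_ge_atTop 1)
  obtain ⟨m, hm, hm1⟩ := hev.exists
  have hm1' : (1 : ℝ) ≤ m := by exact_mod_cast hm1
  have hexp : 2 * (C0 : ℝ) ^ 3 * m ^ 4 < Real.exp m := by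
    have e : Real.exp 1 ^ m = Real.exp m := by
      rw [← Real.exp_nat_mul, mul_one]
    rw [e, div_lt_div_iff₀ (Real.exp_pos _) (by positivity)] at hm
    have : (0 : ℝ) ≤ m ^ 4 := by positivity
    nlinarith
  set s := C0 * m ^ 2 with hs
  set N := C0 * s with hN
  have hspos : 0 < s := by positivity
  have hNpos : 0 < N := by positivity
  have hNr : (0 : ℝ) < N := by exact_mod_cast hNpos
  have hsr : (0 : ℝ) < s := by exact_mod_cast hspos
  have hms : m < s := by
    rw [hs]
    nlinarith
  set w := N * m with hw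
  set r := N ^ 2 * m with hr
  have hrpos : 0 < r := by positivity
  have hwK : w < N * s := Nat.mul_lt_mul_of_pos_left hms hNpos
  set M := N * s - w with hM
  have hMpos : 0 < M := by omega
  have hK : w + M = N * s := by omega
  set p : ℝ := 1 / N with hp
  have hN1 : (1 : ℝ) ≤ N := by exact_mod_cast hNpos
  have hp0 : 0 ≤ p := by positivity
  have hp1 : p ≤ 1 := by
    rw [hp, div_le_one hNr]
    exact hN1
  have hp2 : p ^ 2 ≤ 1 := pow_le_one₀ hp0 hp1
  have hclq := clique (2 * r) M w hMpos
  obtain ⟨Q, hQ1, hQ2⟩ := hclq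
  rw [hK] at hQ2
  have hQpos : 0 < #Q := by
    rw [hQ2]
    positivity
  obtain ⟨v0, -⟩ := card_pos.1 hQpos
  have hlow := prob_lower hrpos v0 hp0 hp1
  -- failure probability
  have b1 : (1 - p ^ 2) ^ r ≤ Real.exp (-m) := by
    calc (1 - p ^ 2) ^ r ≤ (Real.exp (-p ^ 2)) ^ r :=
          pow_le_pow_left₀ (by linarith) (Real.one_sub_le_exp_neg _) _
      _ = Real.exp (-m) := by
          rw [← Real.exp_nat_mul, hr, hp]
          congr 1
          push_cast
          field_simp
  have b2 : (1 - p) ^ w ≤ Real.exp (-m) := by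
    calc (1 - p) ^ w ≤ (Real.exp (-p)) ^ w :=
          pow_le_pow_left₀ (by linarith) (Real.one_sub_le_exp_neg _) _
      _ = Real.exp (-m) := by
          rw [← Real.exp_nat_mul, hw, hp]
          congr 1
          push_cast
          field_simp
  have hKr : (w : ℝ) + M = C0 ^ 3 * m ^ 4 := by
    have : w + M = C0 ^ 3 * m ^ 4 := by
      rw [hK, hN, hs]
      ring
    exact_mod_cast this
  have hhalf : 1 / 2 < prob (Gr (2 * r) M w) p := by
    have h2 : (w : ℝ) * (1 - p ^ 2) ^ r + M * (1 - p) ^ w ≤ ((w : ℝ) + M) * Real.exp (-m) := by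
      rw [add_mul]
      exact add_le_add (mul_le_mul_of_nonneg_left b1 (by positivity))
        (mul_le_mul_of_nonneg_left b2 (by positivity))
    have h3 : ((w : ℝ) + M) * Real.exp (-m) < 1 / 2 := by
      rw [hKr, Real.exp_neg, ← div_eq_mul_inv, div_lt_iff₀ (Real.exp_pos _)]
      linarith
    linarith
  -- intermediate value
  have hne : Nonempty (V (2 * r) M w) := ⟨v0⟩
  have hivt := intermediate_value_Icc hp0 ((prob_cont (Gr (2 * r) M w)).continuousOn (s := Set.Icc 0 p))
  rw [prob_zero] at hivt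
  obtain ⟨q, hq, hq2⟩ := hivt ⟨by norm_num, hhalf.le⟩
  refine ⟨V (2 * r) M w, inferInstance, inferInstance, Gr (2 * r) M w, Q, hQpos, hQ1, q, hq.1,
    hq.2.trans hp1, hq2, hq.2.trans_lt ?_⟩
  -- p < c sqrt(K / n)
  have hcard := card_V (2 * r) M w
  rw [hK] at hcard
  have hcardpos : 0 < Fintype.card (V (2 * r) M w) := Fintype.card_pos
  have hcardr : (0 : ℝ) < Fintype.card (V (2 * r) M w) := by exact_mod_cast hcardpos
  have hcard2 : (Fintype.card (V (2 * r) M w) : ℝ) ≤ 2 * N ^ 3 * m ^ 2 + N ^ 2 * s ^ 2 := by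
    have h2 : w * (2 * r) + M * (N * s) ≤ 2 * N ^ 3 * m ^ 2 + N ^ 2 * s ^ 2 := by
      have h3 : M ≤ N * s := by omega
      have h4 : M * (N * s) ≤ (N * s) * (N * s) := Nat.mul_le_mul_right _ h3
      calc w * (2 * r) + M * (N * s) ≤ w * (2 * r) + (N * s) * (N * s) := by omega
        _ = 2 * N ^ 3 * m ^ 2 + N ^ 2 * s ^ 2 := by
          rw [hw, hr]
          ring
    exact_mod_cast hcard.trans h2
  have hc2 : 0 < c ^ 2 := by positivity
  have hC1' : 4 ≤ C0 * c ^ 2 := by
    rwa [div_le_iff₀ hc2] at hC1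
  have hsr' : (s : ℝ) = C0 * m ^ 2 := by
    rw [hs]
    push_cast
    ring
  have hNr' : (N : ℝ) = C0 * s := by
    rw [hN]
    push_cast
    ring
  have hkey : 2 * (N : ℝ) ^ 3 * m ^ 2 + N ^ 2 * s ^ 2 < c ^ 2 * s * N ^ 3 := by
    have k1 : 4 * (m : ℝ) ^ 2 ≤ c ^ 2 * s := by
      rw [hsr']
      have : (0 : ℝ) ≤ m ^ 2 := by positivity
      nlinarith
    have k2 : 4 * (s : ℝ) ≤ c ^ 2 * N := by
      rw [hNr']
      nlinarith
    have hN3 : (0 : ℝ) < N ^ 3 := by positivity
    have k3 : 2 * (N : ℝ) ^ 3 * m ^ 2 ≤ c ^ 2 * s * N ^ 3 / 2 := by nlinarith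
    have hN2s : (0 : ℝ) < N ^ 2 * s := by positivity
    have k4 : (N : ℝ) ^ 2 * s ^ 2 ≤ c ^ 2 * s * N ^ 3 / 4 := by nlinarith
    have k5 : 0 < c ^ 2 * s * N ^ 3 := by positivity
    linarith
  rw [hQ2]
  have hfin : p ^ 2 < (c * Real.sqrt (((N * s : ℕ) : ℝ) / Fintype.card (V (2 * r) M w))) ^ 2 := by
    rw [mul_pow, Real.sq_sqrt (by positivity), hp, div_pow, one_pow, mul_div_assoc',
      div_lt_div_iff₀ (by positivity) hcardr]
    push_cast
    calc 1 * (Fintype.card (V (2 * r) M w) : ℝ) ≤ 2 * N ^ 3 * m ^ 2 + N ^ 2 * s ^ 2 := by linarith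
      _ < c ^ 2 * s * N ^ 3 := hkey
      _ = c ^ 2 * (N * s) * N ^ 2 := by ring
  exact lt_of_pow_lt_pow_left₀ 2 (by positivity) hfin

end Pool.Agent.X72.Zf
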